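import Pool.Agent.Helper91.GU.StA

/-!
# Project GU, module A3: gluing elements of `A_f` and `A_i`
-/

set_option autoImplicit false

namespace Pool.Agent.Helper2.GU

open Pool.Agent.Helper91.GU

universe u

namespace A3

theorem zero_of_map {A Af : Type u} [CommRing A] [CommRing Af] [Algebra A Af] (f : A)
    [IsLocalization.Away f Af] {x : A} (h : algebraMap A Af x = 0) : ∃ m : ℕ, f ^ m * x = 0 := by
  have h' : algebraMap A Af x = algebraMap A Af 0 := by rw [h, map_zero]
  obtain ⟨⟨c, m, hm⟩, hc⟩ := IsLocalization.exists_of_eq (M := Submonoid.powers f) h'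
  refine ⟨m, ?_⟩
  have hm' : f ^ m = c := hm
  rw [hm']
  simpa using hc

theorem eq_of_map {A Af : Type u} [CommRing A] [CommRing Af] [Algebra A Af] (f : A)
    [IsLocalization.Away f Af] {x y : A} (h : algebraMap A Af x = algebraMap A Af y) :
    ∃ m : ℕ, f ^ m * x = f ^ m * y := by
  obtain ⟨m, hm⟩ := zero_of_map (Af := Af) f (x := x - y) (by rw [map_sub, h, sub_self])
  exact ⟨m, by rw [mul_sub, sub_eq_zero] at hm; exact hm⟩

theorem cancel {A Af : Type u} [CommRing A] [CommRing Af] [Algebra A Af] (f : A)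
    [IsLocalization.Away f Af] {y z : Af} (k : ℕ)
    (h : y * algebraMap A Af f ^ k = z * algebraMap A Af f ^ k) : y = z := by
  have hu : IsUnit (algebraMap A Af f ^ k) :=
    (IsLocalization.Away.algebraMap_isUnit f).pow k
  exact hu.mul_right_cancel h

end A3

theorem hA3 : StA3.{u} := by
  intro A Af Ai Afi _ _ _ _ _ _ _ _ _ f i hS
  have := hS.towf
  have := hS.towi
  have := hS.locf
  have := hS.loci
  have := hS.locfi
  refine ⟨?_, ?_⟩
  · intro xf xi hx
    obtain ⟨k, a, ha⟩ := IsLocalization.Away.surj f xf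
    obtain ⟨l, b, hb⟩ := IsLocalization.Away.surj i xi
    have hA : algebraMap A Afi (a * f ^ l * i ^ (k + l)) =
        algebraMap A Afi (b * i ^ k * f ^ (k + l)) := by
      have e1 : algebraMap A Afi a = algebraMap Af Afi xf * algebraMap A Afi f ^ k := by
        rw [IsScalarTower.algebraMap_apply A Af Afi a, ← ha, map_mul, map_pow,
          ← IsScalarTower.algebraMap_apply A Af Afi f]
      have e2 : algebraMap A Afi b = algebraMap Ai Afi xi * algebraMap A Afi i ^ l := by
        rw [IsScalarTower.algebraMap_apply A Ai Afi b, ← hb, map_mul, map_pow,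
          ← IsScalarTower.algebraMap_apply A Ai Afi i]
      simp only [map_mul, map_pow]
      rw [e1, e2, hx]
      ring
    obtain ⟨m, hm⟩ := A3.eq_of_map (Af := Afi) (f * i) hA
    set K := k + l + m with hK
    set a' := a * f ^ l * f ^ m with ha'
    set b' := b * i ^ k * i ^ m with hb'
    have hab : a' * i ^ K = b' * f ^ K := by
      calc a' * i ^ K = (f * i) ^ m * (a * f ^ l * i ^ (k + l)) := by rw [ha', hK]; ring
        _ = (f * i) ^ m * (b * i ^ k * f ^ (k + l)) := hm
        _ = b' * f ^ K := by rw [hb', hK]; ring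
    have hxa : xf * algebraMap A Af f ^ K = algebraMap A Af a' := by
      rw [ha', map_mul, map_mul, ← ha, map_pow, map_pow, hK]
      ring
    have hxb : xi * algebraMap A Ai i ^ K = algebraMap A Ai b' := by
      rw [hb', map_mul, map_mul, ← hb, map_pow, map_pow, hK]
      ring
    obtain ⟨p, q, hpq⟩ : IsCoprime (f ^ K) (i ^ K) := hS.cop.pow
    refine ⟨p * a' + q * b', ?_, ?_⟩
    · refine A3.cancel f K ?_
      rw [hxa, ← map_pow, ← map_mul]
      congr 1
      linear_combination a' * hpq - q * hab
    · refine A3.cancel i K ?_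
      rw [hxb, ← map_pow, ← map_mul]
      congr 1
      linear_combination b' * hpq + p * hab
  · intro x hf hi
    obtain ⟨m, hm⟩ := A3.zero_of_map f hf
    obtain ⟨l, hl⟩ := A3.zero_of_map i hi
    obtain ⟨p, q, hpq⟩ : IsCoprime (f ^ m) (i ^ l) := hS.cop.pow
    linear_combination (-x) * hpq + p * hm + q * hl

end Pool.Agent.Helper2.GU
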