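import Pool.Agent.Helper91.GU.StA

/-!
# Project GU, module A4: the patching lemma PL
-/

set_option autoImplicit false

namespace Pool.Agent.Helper2.GU

open Pool.Agent.Helper91.GU
open Polynomial

universe u

namespace A4

theorem vecMul_inv {n : Type} [Fintype n] [DecidableEq n] {R : Type u} [CommRing R]
    {v : n → R} {s : Matrix n n R} (hs : IsUnit s.det) (h : Matrix.vecMul v s = v) :
    Matrix.vecMul v s⁻¹ = v := by
  conv_lhs => rw [← h]
  rw [Matrix.vecMul_vecMul, Matrix.mul_nonsing_inv s hs, Matrix.vecMul_one]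

theorem map_inv' {n : Type} [Fintype n] [DecidableEq n] {R S : Type u} [CommRing R] [CommRing S]
    (φ : R →+* S) {s : Matrix n n R} (hs : IsUnit s.det) :
    (s⁻¹).map φ * s.map φ = 1 ∧ s.map φ * (s⁻¹).map φ = 1 := by
  constructor
  · rw [← Matrix.map_mul, Matrix.nonsing_inv_mul s hs, Matrix.map_one φ (map_zero φ) (map_one φ)]
  · rw [← Matrix.map_mul, Matrix.mul_nonsing_inv s hs, Matrix.map_one φ (map_zero φ) (map_one φ)]

theorem map_vecMul {n : Type} [Fintype n] [DecidableEq n] {R S : Type u} [CommRing R] [CommRing S]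
    (φ : R →+* S) (v : n → R) (g : Matrix n n R) (j : n) :
    φ (Matrix.vecMul v g j) = Matrix.vecMul (mp φ v) (g.map φ) j := by
  simp only [Matrix.vecMul, dotProduct, map_sum, map_mul, mp, Matrix.map_apply]

end A4

theorem hA4 (hA2 : StA2.{u}) (hA3 : StA3.{u}) : StA4.{u} := by
  intro A Af Ai Afi _ _ _ _ _ _ _ _ _ f i hS n _ _ v w gf gi h hgf hgi hh hvf hvi hvh h0 h1
  obtain ⟨sf, si, hsf, hsi, hvsf, hvsi, hsplit⟩ := hA2 A Af Ai Afi f i hS n v h hh h0 hvh
  obtain ⟨glue, inj⟩ := hA3 A Af Ai Afi f i hS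
  set φ := algebraMap Af Afi with hφ
  set ψ := algebraMap Ai Afi with hψ
  -- the two invertible matrices with the same image
  have key : (sf⁻¹ * gf).map φ = (si * gi).map ψ := by
    rw [Matrix.map_mul, Matrix.map_mul, ← h1, hsplit, ← Matrix.mul_assoc, ← Matrix.mul_assoc,
      (A4.map_inv' φ hsf).1, Matrix.one_mul]
  have key' : (gf⁻¹ * sf).map φ = (gi⁻¹ * si⁻¹).map ψ := by
    have a1 : (gf⁻¹ * sf).map φ * (sf⁻¹ * gf).map φ = 1 := by
      rw [← Matrix.map_mul, Matrix.mul_assoc, ← Matrix.mul_assoc sf, Matrix.mul_nonsing_inv sf hsf,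
        Matrix.one_mul, Matrix.nonsing_inv_mul gf hgf, Matrix.map_one φ (map_zero φ) (map_one φ)]
    have a2 : (si * gi).map ψ * (gi⁻¹ * si⁻¹).map ψ = 1 := by
      rw [← Matrix.map_mul, Matrix.mul_assoc, ← Matrix.mul_assoc gi, Matrix.mul_nonsing_inv gi hgi,
        Matrix.one_mul, Matrix.mul_nonsing_inv si hsi, Matrix.map_one ψ (map_zero ψ) (map_one ψ)]
    rw [key] at a1
    calc (gf⁻¹ * sf).map φ = (gf⁻¹ * sf).map φ * ((si * gi).map ψ * (gi⁻¹ * si⁻¹).map ψ) := by
          rw [a2, Matrix.mul_one]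
      _ = (gi⁻¹ * si⁻¹).map ψ := by rw [← Matrix.mul_assoc, a1, Matrix.one_mul]
  have gl : ∀ (M : Matrix n n Af) (N : Matrix n n Ai), M.map φ = N.map ψ →
      ∃ G : Matrix n n A, G.map (algebraMap A Af) = M ∧ G.map (algebraMap A Ai) = N := by
    intro M N hMN
    have hx : ∀ a b, ∃ x : A, algebraMap A Af x = M a b ∧ algebraMap A Ai x = N a b := by
      intro a b
      refine glue (M a b) (N a b) ?_
      have := congrFun (congrFun hMN a) b
      simpa [Matrix.map_apply] using this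
    choose G hG1 hG2 using hx
    exact ⟨Matrix.of G, by ext a b; exact hG1 a b, by ext a b; exact hG2 a b⟩
  have inj' : ∀ x y : A, algebraMap A Af x = algebraMap A Af y →
      algebraMap A Ai x = algebraMap A Ai y → x = y := by
    intro x y h1 h2
    exact sub_eq_zero.mp (inj (x - y) (by rw [map_sub, h1, sub_self])
      (by rw [map_sub, h2, sub_self]))
  have injM : ∀ M N : Matrix n n A, M.map (algebraMap A Af) = N.map (algebraMap A Af) →
      M.map (algebraMap A Ai) = N.map (algebraMap A Ai) → M = N := by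
    intro M N h1 h2
    ext a b
    exact inj' _ _ (congrFun (congrFun h1 a) b) (congrFun (congrFun h2 a) b)
  obtain ⟨g, hgf', hgi'⟩ := gl _ _ key
  obtain ⟨g', hgf'', hgi''⟩ := gl _ _ key'
  refine ⟨g, ?_, ?_⟩
  · have hgg : g * g' = 1 := by
      refine injM _ _ ?_ ?_
      · rw [Matrix.map_mul, hgf', hgf'', Matrix.mul_assoc, ← Matrix.mul_assoc gf,
          Matrix.mul_nonsing_inv gf hgf, Matrix.one_mul, Matrix.nonsing_inv_mul sf hsf,
          Matrix.map_one _ (map_zero _) (map_one _)]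
      · rw [Matrix.map_mul, hgi', hgi'', Matrix.mul_assoc, ← Matrix.mul_assoc gi,
          Matrix.mul_nonsing_inv gi hgi, Matrix.one_mul, Matrix.mul_nonsing_inv si hsi,
          Matrix.map_one _ (map_zero _) (map_one _)]
    exact Matrix.isUnit_det_of_right_inverse hgg
  · funext j
    refine inj' _ _ ?_ ?_
    · rw [A4.map_vecMul, hgf', ← Matrix.vecMul_vecMul, A4.vecMul_inv hsf hvsf, hvf]
      rfl
    · rw [A4.map_vecMul, hgi', ← Matrix.vecMul_vecMul, hvsi, hvi]
      rfl

end Pool.Agent.Helper2.GU
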