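import Pool.Agent.Helper91.GU.StH

/-!
# Project GU, module H1: dimension of finitely generated subalgebras of `R[X_1, .., X_n]`
-/

set_option autoImplicit false

namespace Pool.Agent.Helper2.GU

open Pool.Agent.Helper91.GU

universe u

theorem hH1 (hH1b : StH1b.{u}) (hH1c : StH1c.{u}) (hH1d : StH1d.{u}) : StH1.{u} := by
  intro R _ _ d n hd A hA
  refine hH1c A (d + n) ?_
  intro P₀ hP₀
  have hPr : P₀.IsPrime := hP₀.1.1
  obtain ⟨Q, hQ, hQP⟩ := Ideal.exists_comap_eq_of_mem_minimalPrimes_of_injective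
    (f := (A.val : A →+* MvPolynomial (Fin n) R)) Subtype.val_injective P₀ hP₀
  set p : Ideal R := Q.comap (algebraMap R (MvPolynomial (Fin n) R)) with hp
  have hpP : p = P₀.comap (algebraMap R A) := by
    rw [hp, ← hQP, Ideal.comap_comap]
    rfl
  have hpr : p.IsPrime := by
    rw [hp]; exact Ideal.IsPrime.comap _
  let i₁ : R ⧸ p →+* A ⧸ P₀ := Ideal.quotientMap P₀ (algebraMap R A) hpP.le
  let i₂ : R ⧸ p →+* MvPolynomial (Fin n) R ⧸ Q :=
    Ideal.quotientMap Q (algebraMap R (MvPolynomial (Fin n) R)) hp.le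
  have hi₁ : Function.Injective i₁ := Ideal.quotientMap_injective' hpP.ge
  have hi₂ : Function.Injective i₂ := Ideal.quotientMap_injective' hp.ge
  let al₁ : Algebra (R ⧸ p) (A ⧸ P₀) := i₁.toAlgebra
  let al₂ : Algebra (R ⧸ p) (MvPolynomial (Fin n) R ⧸ Q) := i₂.toAlgebra
  have hft : Algebra.FiniteType (R ⧸ p) (A ⧸ P₀) := by
    have h0 : Algebra.FiniteType R A := A.fg_iff_finiteType.mp hA
    have h1 : Algebra.FiniteType R (A ⧸ P₀) :=
      Algebra.FiniteType.of_surjective (Ideal.Quotient.mkₐ R P₀) (Ideal.Quotient.mkₐ_surjective R P₀)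
    have : IsScalarTower R (R ⧸ p) (A ⧸ P₀) := by
      refine IsScalarTower.of_algebraMap_eq fun r => ?_
      rfl
    exact Algebra.FiniteType.of_restrictScalars_finiteType R (R ⧸ p) (A ⧸ P₀)
  let φ₀ : A ⧸ P₀ →+* MvPolynomial (Fin n) R ⧸ Q :=
    Ideal.quotientMap Q (A.val : A →+* MvPolynomial (Fin n) R) hQP.ge
  have hφ₀ : Function.Injective φ₀ := Ideal.quotientMap_injective' hQP.le
  let φ : A ⧸ P₀ →ₐ[R ⧸ p] MvPolynomial (Fin n) R ⧸ Q :=
    { φ₀ with
      commutes' := by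
        intro r
        obtain ⟨r, rfl⟩ := Ideal.Quotient.mk_surjective r
        rfl }
  let ψ : MvPolynomial (Fin n) (R ⧸ p) →ₐ[R ⧸ p] MvPolynomial (Fin n) R ⧸ Q :=
    MvPolynomial.aeval fun i => Ideal.Quotient.mk Q (MvPolynomial.X i)
  have hψ : Function.Surjective ψ := by
    intro y
    obtain ⟨f, rfl⟩ := Ideal.Quotient.mk_surjective y
    refine ⟨MvPolynomial.map (Ideal.Quotient.mk p) f, ?_⟩
    have : ((ψ : MvPolynomial (Fin n) (R ⧸ p) →+* MvPolynomial (Fin n) R ⧸ Q).comp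
        (MvPolynomial.map (Ideal.Quotient.mk p))) = Ideal.Quotient.mk Q := by
      refine MvPolynomial.ringHom_ext ?_ ?_
      · intro r
        simp only [RingHom.comp_apply, MvPolynomial.map_C]
        exact ψ.commutes (Ideal.Quotient.mk p r)
      · intro i
        simp only [RingHom.comp_apply, MvPolynomial.map_X]
        exact MvPolynomial.aeval_X _ i
    exact congrArg (fun g : MvPolynomial (Fin n) R →+* MvPolynomial (Fin n) R ⧸ Q => g f) this
  have htr := hH1d (R ⧸ p) (A ⧸ P₀) (MvPolynomial (Fin n) R ⧸ Q) n hi₂ φ ψ hφ₀ hψ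
  have h := hH1b (R ⧸ p) (A ⧸ P₀) hi₁ hft n htr
  refine h.trans ?_
  have hD : ringKrullDim (R ⧸ p) ≤ d := (ringKrullDim_quotient_le p).trans hd
  push_cast
  gcongr

end Pool.Agent.Helper2.GU
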