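import Pool.Agent.Helper91.GU.StH

/-!
# Project GU, module H1d: transcendence degree bound
-/

set_option autoImplicit false

namespace Pool.Agent.Helper2.GU

open Pool.Agent.Helper91.GU

universe u

theorem hH1d : StH1d.{u} := by
  intro D D' E _ _ _ _ _ _ _ _ n _ φ ψ hφ hψ
  have h1 := trdeg_le_of_injective φ hφ
  have h2 := lift_trdeg_le_of_surjective ψ hψ
  rw [MvPolynomial.trdeg_of_isDomain] at h2
  simp only [Cardinal.mk_fin, Cardinal.lift_natCast, Cardinal.lift_id] at h2
  exact h1.trans h2

end Pool.Agent.Helper2.GU
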